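import Pool.Graph.R_pool_sql_team_seeded_b0a926ef.R347.EM.Over
import Pool.Graph.R_pool_sql_team_seeded_63374d34.N13.PE.Gam

/-!
# Values of E-functions over a field generated by other values of E-functions
-/

set_option autoImplicit false

open Set

namespace Pool.Agent.Helper67.DD

open Pool.Agent.R347.EM Pool.Agent.R347.EM.T Pool.Agent.R347.LC
open Pool.Agent.R352.T (EA gu PI rpow_mem)
open Pool.Agent.R352.E (mem_clF clF subset_clF clF_mono clF_le of_pow exp_rat_mem rat_mem encard_le_of_finset)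
open Pool.Agent.N13.PE (J Z_mem half_mem J_half_zero)

/-- the numbers `E_{b,l+1}(y)` with `b ∉ A` or `l ≠ 0` -/
def S (A : Set ℚ) : Set ℝ :=
  {z | ∃ (l : ℕ) (b y : ℚ), 0 ≤ b ∧ b < 1 ∧ 0 < y ∧ (b ∈ A → l ≠ 0) ∧ z = EA b (l + 1) y}

/-- the names of these numbers -/
abbrev PS (A : Set ℚ) : Type := {p : PI // p.1.2.1 ∈ A → p.1.1 ≠ 0}

/-- the pairs -/
abbrev PA (A : Set ℚ) : Type := {p : ℚ × ℚ // p.1 ∈ A ∧ 0 < p.2}

lemma range_S (A : Set ℚ) : range (fun p : PS A => EA p.1.1.2.1 (p.1.1.1 + 1) p.1.1.2.2) = S A := by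
  ext z
  constructor
  · rintro ⟨p, rfl⟩
    exact ⟨p.1.1.1, p.1.1.2.1, p.1.1.2.2, p.1.2.1, p.1.2.2.1, p.1.2.2.2, p.2, rfl⟩
  · rintro ⟨l, b, y, h0, h1, h2, h3, rfl⟩
    exact ⟨⟨⟨(l, b, y), h0, h1, h2⟩, h3⟩, rfl⟩

section

variable {p : ℕ → ℕ} (hp : ∀ k, 2 ≤ p k) {L : IntermediateField ℚ ℝ} (hL : ∀ x ∈ L, RA p x)

/-- the field `L(S A)` -/
noncomputable def K0 (L : IntermediateField ℚ ℝ) (A : Set ℚ) : IntermediateField ℚ ℝ :=
  (IntermediateField.adjoin L (S A)).restrictScalars ℚ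

lemma K0_eq (L : IntermediateField ℚ ℝ) (A : Set ℚ) :
    K0 L A = IntermediateField.adjoin ℚ ((L : Set ℝ) ∪ S A) :=
  IntermediateField.restrictScalars_adjoin ℚ L (S A)

lemma sub_K0 (L : IntermediateField ℚ ℝ) (A : Set ℚ) : (L : Set ℝ) ∪ S A ⊆ K0 L A := by
  rw [K0_eq]
  exact IntermediateField.subset_adjoin ℚ _

lemma K0_le {L : IntermediateField ℚ ℝ} {A : Set ℚ} {T : Set ℝ} (h : (L : Set ℝ) ∪ S A ⊆ clF T) :
    ((K0 L A : IntermediateField ℚ ℝ) : Set ℝ) ⊆ clF T := by
  intro x hx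
  have h3 : x ∈ clF ((L : Set ℝ) ∪ S A) := by
    rw [mem_clF, ← K0_eq]
    exact isAlgebraic_algebraMap (⟨x, hx⟩ : K0 L A)
  exact clF_le h h3

include hp hL

open scoped IntermediateField.algebraAdjoinAdjoin in
/-- `e` and the numbers `E_{a,1}(x)`, `a ∈ A`, are algebraically independent over `L(S A)` -/
theorem AI_K0 (A : Set ℚ) (hA : ∀ a ∈ A, 0 < a ∧ a < 1) :
    AlgebraicIndependent (K0 L A) (fun o : Option (PA A) => o.elim (Real.exp 1) (fun p => EA p.1.1 1 p.1.2)) := by
  let Z1 : Option (PA A) → ℝ := fun o => o.elim (Real.exp 1) (fun p => EA p.1.1 1 p.1.2)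
  let Z2 : PS A → ℝ := fun p => EA p.1.1.2.1 (p.1.1.1 + 1) p.1.1.2.2
  let g : Option (PA A) ⊕ PS A → Option PI := Sum.elim
    (fun o => o.map fun p => ⟨(0, p.1), (hA _ p.2.1).1.le, (hA _ p.2.1).2, p.2.2⟩) (fun p => some p.1)
  have hg : Function.Injective g := by
    rintro (a | a) (b | b) h
    · rcases a with _ | a <;> rcases b with _ | b
      · rfl
      · simp [g] at h
      · simp [g] at h
      · simp only [g, Sum.elim_inl, Option.map_some, Option.some.injEq, Subtype.mk.injEq,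
          Prod.mk.injEq, true_and] at h
        rw [Subtype.ext h]
    · exfalso
      rcases a with _ | a
      · simp [g] at h
      · simp only [g, Sum.elim_inl, Sum.elim_inr, Option.map_some, Option.some.injEq] at h
        have h1 : ((0, a.1) : ℕ × ℚ × ℚ) = b.1.1 := congrArg Subtype.val h
        have h2 := b.2
        rw [← h1] at h2
        exact h2 a.2.1 rfl
    · exfalso
      rcases b with _ | b
      · simp [g] at h
      · simp only [g, Sum.elim_inl, Sum.elim_inr, Option.map_some, Option.some.injEq] at h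
        have h1 : a.1.1 = ((0, b.1) : ℕ × ℚ × ℚ) := congrArg Subtype.val h
        have h2 := a.2
        rw [h1] at h2
        exact h2 b.2.1 rfl
    · simp only [g, Sum.elim_inr, Option.some.injEq] at h
      rw [Subtype.ext h]
  have h1 : AlgebraicIndependent L (Sum.elim Z1 Z2) := by
    have h2 := (EA_alg_QL hp hL).comp g hg
    convert h2 using 1
    funext i
    rcases i with i | i
    · rcases i with _ | i
      · rfl
      · simp [Z1, g]
    · rfl
  have h3 := (AlgebraicIndependent.sumElim_iff.1 h1).2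
  have h4 : range Z2 = S A := range_S A
  rw [h4] at h3
  exact h3.extendScalars (IntermediateField.adjoin L (S A))

end

end Pool.Agent.Helper67.DD
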