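import Pool.Agent.Helper67.DD.Base

/-!
# The numbers `J a x` over the field
-/

set_option autoImplicit false

open Set MeasureTheory

namespace Pool.Agent.Helper67.DD

open Pool.Agent.R347.EM Pool.Agent.R347.EM.T Pool.Agent.R347.LC
open Pool.Agent.R352.T (EA gu PI rpow_mem EA_deriv' EA_deriv EA_zero_left)
open Pool.Agent.R352.E (mem_clF clF subset_clF clF_mono clF_le of_pow exp_rat_mem rat_mem encard_le_of_finset)
open Pool.Agent.N13.PE (J Z_mem half_mem J_half_zero)

section

variable {p : ℕ → ℕ} (hp : ∀ k, 2 ≤ p k) {L : IntermediateField ℚ ℝ} (hL : ∀ x ∈ L, RA p x)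

include hp hL

/-- counting -/
theorem count (A : Set ℚ) (hA : ∀ a ∈ A, 0 < a ∧ a < 1) {r : ℕ} (y : Fin r → ℝ)
    (hG : ∀ a ∈ A, Real.Gamma (a : ℚ) ∈ clF ((K0 L A : Set ℝ) ∪ ({Real.exp 1} ∪ range y)) ∧
      Real.Gamma (1 - (a : ℚ)) ∈ clF ((K0 L A : Set ℝ) ∪ ({Real.exp 1} ∪ range y))) :
    {i : Fin r ⊕ PA A | Sum.elim y (fun p : PA A => J p.1.1 p.1.2) i ∈
      clF ((K0 L A : Set ℝ) ∪ {Real.exp 1})}.encard ≤ (r : ℕ∞) := by
  have h1 := count_genericL (AI_K0 hp hL A hA) (R := fun p : PA A => J p.1.1 p.1.2) y
    (fun p T hT hR => Z_mem (hA _ p.2.1).1 (hA _ p.2.1).2 p.2.2 (hT (Or.inr (Or.inl rfl)))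
      (clF_le hT (hG _ p.2.1).1) (clF_le hT (hG _ p.2.1).2) hR)
  rwa [Fintype.card_fin] at h1

end

/-- the exceptional value -/
theorem exc (K : IntermediateField ℚ ℝ)
    (hAI : AlgebraicIndependent K (fun o : Option {x : ℚ // 0 < x} =>
      o.elim (Real.exp 1) (fun x => EA (1 / 2 : ℚ) 1 (x : ℚ)))) {x₀ : ℚ} (hx₀ : 0 ≤ x₀)
    (h0 : J (1 / 2) x₀ ∈ clF ((K : Set ℝ) ∪ {Real.exp 1})) :
    AlgebraicIndependent K (fun o : Option {x : ℚ // 0 ≤ x ∧ x ≠ x₀} =>
      o.elim (Real.exp 1) (fun x => J (1 / 2) (x : ℚ))) := by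
  classical
  have AI_half : ∀ S : Finset ℚ, (∀ x ∈ S, 0 < x) →
      AlgebraicIndependent K (fun o : Option S => o.elim (Real.exp 1) (fun p => EA (1 / 2 : ℚ) 1 (p : ℚ))) := by
    intro S hS
    let f : Option S → Option {x : ℚ // 0 < x} := Option.map fun p => ⟨p, hS _ p.2⟩
    have hf : Function.Injective f := by
      refine Option.map_injective ?_
      intro p p' h
      simp only [Subtype.mk.injEq] at h
      exact Subtype.ext h
    have h2 := hAI.comp f hf
    convert h2 using 1
    ext o
    cases o <;> simp [f]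
  refine algebraicIndependent_of_finite_type fun t ht => ?_
  let S : Finset ℚ := (ht.toFinset.biUnion fun o => o.elim ∅ (fun x => {(x : ℚ)})).filter (fun x => 0 < x ∧ x ≠ x₀)
  have hSm : ∀ x : {x : ℚ // 0 ≤ x ∧ x ≠ x₀}, some x ∈ t → (x : ℚ) ≠ 0 → (x : ℚ) ∈ S := by
    intro x hx hx0
    refine Finset.mem_filter.2 ⟨Finset.mem_biUnion.2 ⟨some x, ht.mem_toFinset.2 hx, by simp⟩, ?_, x.2.2⟩
    exact lt_of_le_of_ne x.2.1 (Ne.symm hx0)
  have hS : ∀ x ∈ S, 0 < x ∧ x ≠ x₀ := fun x hx => (Finset.mem_filter.1 hx).2
  have hcl : ∀ T : Set ℝ, Real.exp 1 ∈ clF ((K : Set ℝ) ∪ T) →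
      clF ((K : Set ℝ) ∪ {Real.exp 1}) ≤ clF ((K : Set ℝ) ∪ T) := by
    intro T hT
    refine clF_le ?_
    rintro z (hz | rfl)
    · exact subset_clF _ (Or.inl hz)
    · exact hT
  rcases hx₀.eq_or_lt with hz | hpos
  · -- `x₀ = 0`
    have hAI' := AI_half S fun x hx => (hS x hx).1
    have h2 : AlgebraicIndependent K (fun o : Option S => o.elim (Real.exp 1) (fun p => J (1 / 2) (p : ℚ))) := by
      refine indep_of_spanL hAI' (fun o => ?_) le_rfl
      set T : Set ℝ := range fun o : Option S => o.elim (Real.exp 1) (fun p => J (1 / 2) ((p : ℚ) : ℝ)) with hT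
      have he : Real.exp 1 ∈ clF ((K : Set ℝ) ∪ T) := subset_clF _ (Or.inr ⟨none, rfl⟩)
      have hpi : Real.pi ∈ clF ((K : Set ℝ) ∪ T) := by
        rw [← hz, Rat.cast_zero, J_half_zero] at h0
        exact hcl T he h0
      cases o with
      | none => exact he
      | some p => exact half_mem (hS _ p.2).1 he hpi (subset_clF _ (Or.inr ⟨some p, rfl⟩))
    let f : t → Option S := fun o =>
      match o with
      | ⟨none, _⟩ => none
      | ⟨some x, hx⟩ => some ⟨x, hSm x hx (fun h => x.2.2 (by rw [h, ← hz]))⟩
    have hf : Function.Injective f := by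
      rintro ⟨o, ho⟩ ⟨o', ho'⟩ hoo
      cases o with
      | none =>
        cases o' with
        | none => rfl
        | some x' => exact absurd hoo (by simp [f])
      | some x =>
        cases o' with
        | none => exact absurd hoo (by simp [f])
        | some x' =>
          simp only [f, Option.some.injEq, Subtype.mk.injEq] at hoo
          have : x = x' := Subtype.ext hoo
          subst this
          rfl
    have h3 := h2.comp f hf
    convert h3 using 1
    ext ⟨o, ho⟩
    cases o with
    | none => rfl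
    | some p => simp [f]
  · -- `0 < x₀`
    have hnot : x₀ ∉ S := fun h => (hS x₀ h).2 rfl
    have hAI' := AI_half (insert x₀ S) (by
      intro x hx
      rcases Finset.mem_insert.1 hx with rfl | hx
      · exact hpos
      · exact (hS x hx).1)
    have hnot0 : (0 : ℚ) ∉ S := fun h => lt_irrefl _ (hS 0 h).1
    have h2 : AlgebraicIndependent K (fun o : Option (insert (0 : ℚ) S : Finset ℚ) =>
        o.elim (Real.exp 1) (fun p => J (1 / 2) (p : ℚ))) := by
      refine indep_of_spanL hAI' (fun o => ?_) ?_
      · set T : Set ℝ := range fun o : Option (insert (0 : ℚ) S : Finset ℚ) =>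
          o.elim (Real.exp 1) (fun p => J (1 / 2) ((p : ℚ) : ℝ)) with hT
        have he : Real.exp 1 ∈ clF ((K : Set ℝ) ∪ T) := subset_clF _ (Or.inr ⟨none, rfl⟩)
        have hpi : Real.pi ∈ clF ((K : Set ℝ) ∪ T) := by
          refine subset_clF _ (Or.inr ⟨some ⟨0, Finset.mem_insert_self _ _⟩, ?_⟩)
          simp only [Option.elim, Rat.cast_zero]
          exact J_half_zero
        cases o with
        | none => exact he
        | some p =>
          obtain ⟨p, hp⟩ := p
          rcases Finset.mem_insert.1 hp with rfl | hp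
          · exact half_mem hpos he hpi (hcl T he h0)
          · exact half_mem (hS p hp).1 he hpi (subset_clF _ (Or.inr ⟨some ⟨p, Finset.mem_insert_of_mem hp⟩, rfl⟩))
      · rw [Fintype.card_option, Fintype.card_option, Fintype.card_coe, Fintype.card_coe,
          Finset.card_insert_of_notMem hnot, Finset.card_insert_of_notMem hnot0]
    let f : t → Option (insert (0 : ℚ) S : Finset ℚ) := fun o =>
      match o with
      | ⟨none, _⟩ => none
      | ⟨some x, hx⟩ => some ⟨x, by
          by_cases h : (x : ℚ) = 0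
          · rw [h]; exact Finset.mem_insert_self _ _
          · exact Finset.mem_insert_of_mem (hSm x hx h)⟩
    have hf : Function.Injective f := by
      rintro ⟨o, ho⟩ ⟨o', ho'⟩ hoo
      cases o with
      | none =>
        cases o' with
        | none => rfl
        | some x' => exact absurd hoo (by simp [f])
      | some x =>
        cases o' with
        | none => exact absurd hoo (by simp [f])
        | some x' =>
          simp only [f, Option.some.injEq, Subtype.mk.injEq] at hoo
          have : x = x' := Subtype.ext hoo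
          subst this
          rfl
    have h3 := h2.comp f hf
    convert h3 using 1
    ext ⟨o, ho⟩
    cases o with
    | none => rfl
    | some p => simp [f]

/-! ### the deformation of `e` -/

/-- `1 + y ∫_0^1 t^b e^(y (1 - t)) dt` -/
noncomputable def E (b y : ℝ) : ℝ := 1 + y * ∫ t in (0 : ℝ)..1, t ^ b * Real.exp (y * (1 - t))

theorem E_eq {b y : ℝ} (hb : 0 ≤ b) (hy : 0 < y) : E b y = Real.exp y * (1 - b * EA b 1 y) := by
  -- the primitive
  have key : ∫ t in (0 : ℝ)..1, y * (t ^ b * Real.exp (-(y * t))) =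
      ((1 : ℝ) ^ b * (1 - Real.exp (-(y * 1))) - b * ((1 : ℝ) ^ b * EA b 1 (y * 1))) -
      ((0 : ℝ) ^ b * (1 - Real.exp (-(y * 0))) - b * ((0 : ℝ) ^ b * EA b 1 (y * 0))) := by
    refine intervalIntegral.integral_eq_sub_of_hasDerivAt_of_le (f := fun t : ℝ =>
      t ^ b * (1 - Real.exp (-(y * t))) - b * (t ^ b * EA b 1 (y * t))) zero_le_one ?_ ?_ ?_
    · have hc : Continuous fun t : ℝ => t ^ b := Real.continuous_rpow_const hb
      have hE : Continuous fun t : ℝ => EA b 1 (y * t) := by
        have h1 : Continuous (EA b 1) := by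
          rw [continuous_iff_continuousAt]
          intro x
          exact (EA_deriv hb 0 x).continuousAt
        exact h1.comp (continuous_const.mul continuous_id)
      exact ((hc.mul (continuous_const.sub (Real.continuous_exp.comp (continuous_const.mul continuous_id).neg))).sub
        (continuous_const.mul (hc.mul hE))).continuousOn
    · intro t ht
      have ht0 : 0 < t := ht.1
      have hyt : 0 < y * t := mul_pos hy ht0
      have h1 : HasDerivAt (fun t : ℝ => t ^ b) (b * t ^ (b - 1)) t :=
        Real.hasDerivAt_rpow_const (Or.inl ht0.ne')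
      have h2 : HasDerivAt (fun t : ℝ => 1 - Real.exp (-(y * t))) (y * Real.exp (-(y * t))) t := by
        have h3 : HasDerivAt (fun t : ℝ => -(y * t)) (-y) t := by
          have h := (hasDerivAt_id t).const_mul (-y)
          rw [mul_one] at h
          refine h.congr_of_eventuallyEq (Filter.Eventually.of_forall fun s => ?_)
          simp
        have h4 := (h3.exp).const_sub 1
        refine h4.congr_deriv ?_
        ring
      have h5 : HasDerivAt (fun t : ℝ => EA b 1 (y * t))
          ((EA b 0 (y * t) - b * EA b 1 (y * t)) / (y * t) * y) t := by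
        have h6 : HasDerivAt (fun t : ℝ => y * t) y t := by
          have := (hasDerivAt_id t).const_mul y
          simpa using this
        exact (EA_deriv' hb 0 hyt).comp t h6
      have h7 := (h1.mul h2).sub ((h1.mul h5).const_mul b)
      refine h7.congr_deriv ?_
      rw [EA_zero_left]
      have h8 : t ^ b = t ^ (b - 1) * t := by
        rw [← Real.rpow_add_one ht0.ne']
        ring_nf
      rw [h8]
      field_simp
      ring
    · have hc : Continuous fun t : ℝ => t ^ b := Real.continuous_rpow_const hb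
      exact (continuous_const.mul (hc.mul (Real.continuous_exp.comp
        (continuous_const.mul continuous_id).neg))).intervalIntegrable _ _
  have h0 : EA b 1 (y * 0) = 0 := by
    rw [mul_zero, Pool.Agent.R352.T.EA_eq, zero_mul]
  rw [h0] at key
  simp only [mul_zero, neg_zero, Real.exp_zero, sub_self, mul_one, Real.one_rpow, one_mul,
    sub_zero] at key
  rw [intervalIntegral.integral_const_mul] at key
  have h1 : ∫ t in (0 : ℝ)..1, t ^ b * Real.exp (y * (1 - t)) =
      Real.exp y * ∫ t in (0 : ℝ)..1, t ^ b * Real.exp (-(y * t)) := by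
    rw [← intervalIntegral.integral_const_mul]
    congr 1
    ext t
    have : y * (1 - t) = y + -(y * t) := by ring
    rw [this, Real.exp_add]
    ring
  rw [E, h1]
  have h2 : y * (Real.exp y * ∫ t in (0 : ℝ)..1, t ^ b * Real.exp (-(y * t))) =
      Real.exp y * (1 - Real.exp (-y) - b * EA b 1 y) := by
    rw [← key]
    ring
  rw [h2, mul_sub, mul_sub, ← Real.exp_add]
  simp
  ring

end Pool.Agent.Helper67.DD
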